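import Mathlib

/-!
# The abstract account

Abstract form of the argument for bodies near the parallelograms: leans of darts, clusters,
cut-off functions, and the area account.
-/

open scoped Classical

namespace C2305bA

/-- The number lemma, as a property of `B`, `e3`. -/
def NumProp (B : ℕ) (e3 : ℝ) : Prop := ∀ φ : ℝ, ∃ φ0 : ℝ, ∀ d z : ℤ, |d| ≤ (B : ℤ) →
  |Real.pi * z - φ * d| ≤ e3 → Real.pi * z = φ0 * d

/-- The abstract data of a tiling. -/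
structure Sys (ι V : Type) where
  /-- vertices -/
  W : Finset V
  /-- incidence of vertices and cells -/
  In : V → ι → Prop
  /-- darts of a cell -/
  E : ι → Finset (V × V)
  /-- boundary darts -/
  bd : V × V → Prop
  /-- long darts -/
  lo : V × V → Prop
  /-- lean at the start -/
  ls : ι → V × V → ℝ
  /-- lean at the end -/
  le : ι → V × V → ℝ
  /-- type of the dart -/
  kk : ι → V × V → ℤ
  /-- turning of a boundary dart -/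
  tu : V × V → ℝ
  /-- missing area -/
  m : ι → ℝ
  /-- total area of the caps -/
  cap : ι → ℝ
  /-- loss -/
  loss : ι → ℝ
  /-- cluster of a vertex -/
  c : V → V
  /-- special cells -/
  Sp : ι → Prop

namespace Sys

variable {ι V : Type} [Fintype ι] (S : Sys ι V)

/-- The cluster sum of the leans, without the turning of the short arcs. -/
noncomputable def Rp (x : V) : ℝ :=
  (∑ i, ∑ e ∈ (S.E i).filter (fun e => S.lo e),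
    ((if S.c e.1 = x then S.ls i e else 0) - (if S.c e.2 = x then S.le i e else 0)))
  - ∑ i, ∑ e ∈ (S.E i).filter (fun e => S.bd e ∧ ¬ S.lo e), (if S.c e.1 = x then S.tu e else 0)

/-- The integer of a cluster. -/
noncomputable def dd (x : V) : ℤ :=
  ∑ i, ∑ e ∈ (S.E i).filter (fun e => S.lo e),
    ((if S.c e.1 = x then 1 else 0) - (if S.c e.2 = x then 1 else 0)) * S.kk i e

/-- Bad cells for the threshold `μ`. -/
noncomputable def bad (μ : ℝ) : Finset ι := Finset.univ.filter fun i => μ < S.m i ∨ S.Sp i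

/-- Variation of a function on a cell. -/
noncomputable def grad (f : V → ℝ) (i : ι) : ℝ := ∑ e ∈ S.E i, |f e.1 - f e.2|

/-- Cells on which `f` is not `1`. -/
noncomputable def near (f : V → ℝ) : Finset ι :=
  Finset.univ.filter fun i => ∃ v ∈ S.W, S.In v i ∧ f v < 1

/-- A cut-off function. -/
structure Cut (N0 : ℕ) (C5 : ℝ) (bd : Finset ι) (sp : Finset V) (k0 : ℝ) (f : V → ℝ) : Prop where
  nn : ∀ v, 0 ≤ f v
  le1 : ∀ v, f v ≤ 1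
  zb : ∀ v ∈ S.W, ∀ i ∈ bd, S.In v i → f v = 0
  zs : ∀ v ∈ sp, f v = 0
  cl : ∀ v ∈ S.W, ∀ w ∈ S.W, S.c v = S.c w → f v = f w
  lip : ∀ i, ∀ v ∈ S.W, ∀ w ∈ S.W, S.In v i → S.In w i → |f v - f w| ≤ C5 / k0
  near : ((Finset.univ.filter fun i => i ∉ bd ∧ ∃ v ∈ S.W, S.In v i ∧ f v < 1).card : ℝ)
    ≤ C5 * k0 ^ 2 * (bd.card + sp.card)
  cells : ∀ v ∈ S.W, 0 < f v →
    (Finset.univ.filter fun i => ∃ w ∈ S.W, S.In w i ∧ S.c w = S.c v).card ≤ N0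
  good : ∀ v ∈ S.W, 0 < f v → ∀ w ∈ S.W, S.c w = S.c v → ∀ i, S.In w i → i ∉ bd
  pts : ∀ v ∈ S.W, 0 < f v → (S.W.filter fun w => S.c w = S.c v).card ≤ N0
  cellpts : ∀ i, (S.W.filter fun v => S.In v i ∧ 0 < f v).card ≤ N0
  zero : ∀ v ∈ S.W, f v = 0 → ∃ w ∈ S.W, S.c w = S.c v ∧ (w ∈ sp ∨ ∃ i ∈ bd, S.In w i)

/-- The hypotheses. -/
structure Ok (N0 M : ℕ) (CL Cc C1 C5 μ0 e1 σ φ b : ℝ) : Prop where
  mnn : ∀ i, 0 ≤ S.m i
  lossnn : ∀ i, 0 ≤ S.loss i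
  eW : ∀ i, ∀ e ∈ S.E i, (e.1 ∈ S.W ∧ S.In e.1 i) ∧ (e.2 ∈ S.W ∧ S.In e.2 i)
  out : ∀ i, ∀ e ∈ S.E i, ∀ e' ∈ S.E i, e.1 = e'.1 → e = e'
  inn : ∀ i, ∀ e ∈ S.E i, ∀ e' ∈ S.E i, e.2 = e'.2 → e = e'
  short : ∀ i, ∀ e ∈ S.E i, ¬ S.lo e → S.c e.1 = S.c e.2
  kk1 : ∀ i, ∀ e ∈ S.E i, |S.kk i e| ≤ 1
  tunn : ∀ i, ∀ e ∈ S.E i, S.bd e → 0 ≤ S.tu e
  inner : ∀ i, S.m i ≤ μ0 → ¬ S.Sp i → ∀ e ∈ S.E i, S.lo e → ¬ S.bd e →
    S.le i e = S.ls i e ∧ |S.ls i e| ≤ CL * (σ + S.m i)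
  bdry : ∀ i, S.m i ≤ μ0 → ¬ S.Sp i → ∀ e ∈ S.E i, S.lo e → S.bd e →
    S.ls i e ≤ CL * (σ + S.m i) ∧ -(CL * (σ + S.m i)) ≤ S.le i e ∧
    S.le i e - S.ls i e = S.tu e
  tu1 : ∀ i, S.m i ≤ μ0 → ¬ S.Sp i → ∀ e ∈ S.E i, S.bd e → S.tu e ≤ e1
  hasCell : ∀ v ∈ S.W, ∃ i, S.In v i
  clus : ∀ x ∈ S.W.image S.c, (∀ v ∈ S.W, S.c v = x → ∀ i, S.In v i → S.m i ≤ μ0 ∧ ¬ S.Sp i) →
    ∃ z : ℤ, S.Rp x = Real.pi * z - φ * S.dd x
  cut : ∀ (μ : ℝ) (sp : Finset V) (k0 : ℝ), 0 < μ → μ ≤ μ0 → sp ⊆ S.W → 1 ≤ k0 →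
    ∃ f : V → ℝ, S.Cut N0 C5 (S.bad μ) sp k0 f
  acc : 0 < (∑ i, (S.cap i - S.loss i)) - σ * b
  cl : ∀ i, S.cap i - S.loss i ≤ C1 * σ - S.m i
  cap : ∀ i, S.m i ≤ μ0 → ¬ S.Sp i → S.cap i ≤ Cc * ∑ e ∈ (S.E i).filter (fun e => S.bd e), S.tu e
  spM : (Finset.univ.filter fun i => S.Sp i).card ≤ M

end Sys

end C2305bA
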