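import Pool.Agent.W_c2305ba_h79.NearAbs4

/-!
# The abstract theorem
-/

open scoped Classical

namespace C2305bA.Sys

variable {ι V : Type} [Fintype ι] {S : Sys ι V}

lemma near_fin {K σ μ nb M Sm b : ℝ} (hσ : 0 < σ) (hK : 0 ≤ K) (hKμ : K * σ ≤ μ)
    (hSm : 0 ≤ Sm) (hbad : μ * (nb - M) ≤ Sm) (h : σ * b < K * σ * nb - Sm) : b ≤ K * M := by
  have h1 : σ * b ≤ σ * (K * M) := by
    rcases le_total nb M with h2 | h2
    · have h3 : K * σ * nb ≤ K * σ * M := mul_le_mul_of_nonneg_left h2 (by positivity)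
      nlinarith
    · have h3 : (K * σ - μ) * (nb - M) ≤ 0 :=
        mul_nonpos_of_nonpos_of_nonneg (by linarith) (by linarith)
      nlinarith
  exact le_of_mul_le_mul_left h1 hσ

section

variable {N0 M : ℕ} {CL Cc C1 C5 μ0 e1 σ φ b : ℝ}

lemma F_nonneg {bd : Finset ι} {sp : Finset V} {k0 : ℝ} {f F : V → ℝ}
    (hf : S.Cut N0 C5 bd sp k0 f) (hF : ∀ v ∈ S.W, F (S.c v) = f v) {x : V}
    (hx : x ∈ S.W.image S.c) : 0 ≤ F x := by
  obtain ⟨v, hv, rfl⟩ := Finset.mem_image.mp hx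
  rw [hF v hv]
  exact hf.nn v

/-- The number of clusters with nonzero integer. -/
lemma Ok.count (h : S.Ok N0 M CL Cc C1 C5 μ0 e1 σ φ b) {bd : Finset ι}
    {k0 : ℝ} {f : V → ℝ} (hC5 : 0 ≤ C5) (hk : 0 < k0)
    (hf : S.Cut N0 C5 bd ∅ k0 f) {F : V → ℝ} (hF : ∀ v ∈ S.W, F (S.c v) = f v) {δ φ0 : ℝ}
    (hδ : 0 < δ) (hδ' : |φ0 - φ| = δ)
    (hR : ∀ v ∈ S.W, 0 < f v → S.Rp (S.c v) = (φ0 - φ) * S.dd (S.c v) ∧ S.Rp (S.c v) < δ) :
    ((S.W.filter fun v => 0 < f v ∧ S.dd (S.c v) ≠ 0).card : ℝ) ≤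
      N0 * (2 * N0 * (C5 / k0) + N0) * (S.ngood bd f).card := by
  set X := S.W.filter fun v => 0 < f v ∧ S.dd (S.c v) ≠ 0 with hX
  set L := X.image S.c with hL
  have hXL : (X.card : ℝ) ≤ N0 * L.card := by
    have h1 : X.card ≤ N0 * L.card := by
      apply Finset.card_le_mul_card_image
      intro x hx
      rw [Finset.mem_image] at hx
      obtain ⟨v, hv, rfl⟩ := hx
      rw [hX, Finset.mem_filter] at hv
      refine le_trans (Finset.card_le_card ?_) (hf.pts v hv.1 hv.2.1)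
      intro w hw
      rw [Finset.mem_filter] at hw ⊢
      rw [hX, Finset.mem_filter] at hw
      exact ⟨hw.1.1, hw.2⟩
    exact_mod_cast h1
  -- on `L` the sums are at most `-δ`
  have hlow : ∀ x ∈ L, 0 < F x ∧ S.Rp x ≤ -δ := by
    intro x hx
    rw [hL, Finset.mem_image] at hx
    obtain ⟨v, hv, rfl⟩ := hx
    rw [hX, Finset.mem_filter] at hv
    obtain ⟨h1, h2⟩ := hR v hv.1 hv.2.1
    refine ⟨by rw [hF v hv.1]; exact hv.2.1, ?_⟩
    have h3 : (1 : ℝ) ≤ |(S.dd (S.c v) : ℝ)| := by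
      have : (1 : ℤ) ≤ |S.dd (S.c v)| := Int.one_le_abs hv.2.2
      exact_mod_cast this
    have h4 : δ ≤ |S.Rp (S.c v)| := by
      rw [h1, abs_mul, hδ']
      nlinarith
    rcases abs_cases (S.Rp (S.c v)) with h5 | h5
    · linarith
    · linarith
  -- the weighted sum
  have hsum : δ * ∑ x ∈ L, F x ≤ δ * ((S.ngood bd f).card * (2 * N0 * (C5 / k0))) := by
    have h1 := h.dd_sum hC5 hk hf hF
    have h2 : ∑ x ∈ S.W.image S.c, F x * S.Rp x =
        (φ0 - φ) * ∑ x ∈ S.W.image S.c, F x * (S.dd x : ℝ) := by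
      rw [Finset.mul_sum]
      refine Finset.sum_congr rfl fun x hx => ?_
      obtain ⟨v, hv, rfl⟩ := Finset.mem_image.mp hx
      by_cases h0 : 0 < f v
      · rw [(hR v hv h0).1]; ring
      · have h3 : F (S.c v) = 0 := by
          rw [hF v hv]
          exact le_antisymm (not_lt.mp h0) (hf.nn v)
        rw [h3]; ring
    have h3 : ∑ x ∈ S.W.image S.c, F x * S.Rp x ≤ ∑ x ∈ L, F x * (-δ) := by
      have hLs : L ⊆ S.W.image S.c := by
        intro x hx
        rw [hL, Finset.mem_image] at hx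
        obtain ⟨v, hv, rfl⟩ := hx
        rw [hX, Finset.mem_filter] at hv
        exact Finset.mem_image_of_mem _ hv.1
      rw [← Finset.sum_sdiff hLs]
      have h4 : ∑ x ∈ S.W.image S.c \ L, F x * S.Rp x ≤ 0 := by
        refine Finset.sum_nonpos fun x hx => ?_
        rw [Finset.mem_sdiff] at hx
        obtain ⟨v, hv, rfl⟩ := Finset.mem_image.mp hx.1
        by_cases h0 : 0 < f v
        · have h5 : S.dd (S.c v) = 0 := by
            by_contra h6
            apply hx.2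
            rw [hL, Finset.mem_image]
            exact ⟨v, by rw [hX, Finset.mem_filter]; exact ⟨hv, h0, h6⟩, rfl⟩
          rw [(hR v hv h0).1, h5]
          simp
        · have h5 : F (S.c v) = 0 := by
            rw [hF v hv]
            exact le_antisymm (not_lt.mp h0) (hf.nn v)
          rw [h5]; simp
      have h5 : ∑ x ∈ L, F x * S.Rp x ≤ ∑ x ∈ L, F x * (-δ) :=
        Finset.sum_le_sum fun x hx => mul_le_mul_of_nonneg_left (hlow x hx).2 (hlow x hx).1.le
      linarith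
    rw [h2, ← Finset.sum_mul] at h3
    have h6 : -((φ0 - φ) * ∑ x ∈ S.W.image S.c, F x * (S.dd x : ℝ)) ≤
        δ * ((S.ngood bd f).card * (2 * N0 * (C5 / k0))) := by
      calc -((φ0 - φ) * ∑ x ∈ S.W.image S.c, F x * (S.dd x : ℝ)) ≤
            |(φ0 - φ) * ∑ x ∈ S.W.image S.c, F x * (S.dd x : ℝ)| := neg_le_abs _
        _ = δ * |∑ x ∈ S.W.image S.c, F x * (S.dd x : ℝ)| := by rw [abs_mul, hδ']
        _ ≤ _ := mul_le_mul_of_nonneg_left h1 hδ.le
    nlinarith
  have hsum' : ∑ x ∈ L, F x ≤ (S.ngood bd f).card * (2 * N0 * (C5 / k0)) :=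
    le_of_mul_le_mul_left hsum hδ
  -- split `L`
  have hL2 : (L.card : ℝ) ≤ (∑ x ∈ L, F x) + N0 * (S.ngood bd f).card := by
    set L2 := L.filter fun x => F x < 1 with hL2
    have h1 : (L2.card : ℝ) ≤ N0 * (S.ngood bd f).card := by
      have h2 : L2 ⊆ ((S.ngood bd f).biUnion
          fun i => S.W.filter fun v => S.In v i ∧ 0 < f v).image S.c := by
        intro x hx
        rw [hL2, Finset.mem_filter, hL, Finset.mem_image] at hx
        obtain ⟨⟨v, hv, rfl⟩, hx2⟩ := hx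
        rw [hX, Finset.mem_filter] at hv
        rw [hF v hv.1] at hx2
        obtain ⟨i, hi⟩ := h.hasCell v hv.1
        rw [Finset.mem_image]
        refine ⟨v, ?_, rfl⟩
        rw [Finset.mem_biUnion]
        refine ⟨i, ?_, ?_⟩
        · rw [ngood, Finset.mem_filter]
          exact ⟨Finset.mem_univ _, hf.good v hv.1 hv.2.1 v hv.1 rfl i hi, v, hv.1, hi, hx2⟩
        · rw [Finset.mem_filter]
          exact ⟨hv.1, hi, hv.2.1⟩
      have h3 := (Finset.card_le_card h2).trans (Finset.card_image_le.trans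
        (Finset.card_biUnion_le_card_mul _ _ N0 fun i _ => hf.cellpts i))
      have h4 : (L2.card : ℝ) ≤ ((S.ngood bd f).card * N0 : ℕ) := by exact_mod_cast h3
      push_cast at h4
      linarith
    have h2 : (L.card : ℝ) ≤ ∑ x ∈ L, (F x + if F x < 1 then 1 else 0) := by
      calc (L.card : ℝ) = ∑ _x ∈ L, (1 : ℝ) := by simp
        _ ≤ _ := by
          refine Finset.sum_le_sum fun x hx => ?_
          split_ifs with h3
          · linarith [(hlow x hx).1]
          · linarith [not_lt.mp h3]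
    rw [Finset.sum_add_distrib, ← Finset.sum_filter, Finset.sum_const, nsmul_eq_mul,
      mul_one] at h2
    linarith
  have hN : (0 : ℝ) ≤ N0 := Nat.cast_nonneg _
  calc (X.card : ℝ) ≤ N0 * L.card := hXL
    _ ≤ N0 * ((S.ngood bd f).card * (2 * N0 * (C5 / k0)) + N0 * (S.ngood bd f).card) := by
        apply mul_le_mul_of_nonneg_left _ hN
        linarith
    _ = _ := by ring

end

/-- **The abstract theorem.** -/
theorem near_abs (N0 : ℕ) {CL Cc C1 C5 μ1 e3 : ℝ} (hCL : 0 < CL) (hCc : 0 < Cc)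
    (hC1 : 0 < C1) (hC5 : 0 < C5) (hμ1 : 0 < μ1) (he3 : 0 < e3)
    (hnum : NumProp (2 * N0 ^ 2) e3) :
    ∃ μ0, 0 < μ0 ∧ μ0 ≤ μ1 ∧ ∃ e1, 0 < e1 ∧ e1 ≤ μ1 ∧ ∀ M : ℕ, ∃ s0, 0 < s0 ∧ ∃ Bm : ℝ,
      ∀ (ι V : Type) [Fintype ι] (S : Sys ι V) (σ φ b : ℝ), 0 < σ → σ ≤ s0 →
        S.Ok N0 M CL Cc C1 C5 μ0 e1 σ φ b → b ≤ Bm := by
  set Q : ℝ := 2 * (N0 : ℝ) ^ 2 with hQ
  have hQ0 : 0 ≤ Q := by positivity
  set μ0 := min μ1 (e3 / (4 * (Q + 1) * CL)) with hμ0
  set e1 := min μ1 (e3 / (8 * (Q + 1))) with he1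
  have hμ0p : 0 < μ0 := lt_min hμ1 (by positivity)
  have he1p : 0 < e1 := lt_min hμ1 (by positivity)
  refine ⟨μ0, hμ0p, min_le_left _ _, e1, he1p, min_le_left _ _, fun M => ?_⟩
  have hQμ : Q * (CL * (2 * μ0)) ≤ e3 / 2 := by
    have h1 : μ0 ≤ e3 / (4 * (Q + 1) * CL) := min_le_right _ _
    rw [le_div_iff₀ (by positivity)] at h1
    have h2 : 0 ≤ μ0 * CL := by positivity
    nlinarith
  have hQe : Q * (2 * e1) ≤ e3 / 4 := by
    have h1 : e1 ≤ e3 / (8 * (Q + 1)) := min_le_right _ _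
    rw [le_div_iff₀ (by positivity)] at h1
    nlinarith
  set k0 : ℝ := max 1 (4 * N0 * C5 * Cc * CL) with hk0
  have hk1 : 1 ≤ k0 := le_max_left _ _
  have hkp : 0 < k0 := by linarith
  set G : ℝ := 2 * N0 * (C5 / k0) with hG
  have hG0 : 0 ≤ G := by positivity
  have hGG : Cc * CL * (2 * N0 * (C5 / k0)) ≤ 1 / 2 := by
    have h1 : 4 * N0 * C5 * Cc * CL ≤ k0 := le_max_right _ _
    have h2 : Cc * CL * (2 * N0 * (C5 / k0)) = (4 * N0 * C5 * Cc * CL) / k0 / 2 := by ring
    rw [h2]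
    have h3 : (4 * N0 * C5 * Cc * CL) / k0 ≤ 1 := (div_le_one hkp).mpr h1
    linarith
  set D5 : ℝ := C5 * k0 ^ 2 with hD5
  have hD50 : 0 < D5 := by positivity
  set K4 : ℝ := N0 * (G + N0) * D5 with hK4
  have hK40 : 0 ≤ K4 := by positivity
  set K5 : ℝ := D5 * (1 + K4) with hK5
  have hK50 : 0 < K5 := by positivity
  set K6 : ℝ := C1 + (C1 + 1) * K5 with hK6
  have hK60 : 0 < K6 := by positivity
  set c1 : ℝ := 1 / (4 * (Q + 1) * CL) with hc1
  have hc1p : 0 < c1 := by positivity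
  set C' : ℝ := max (4 * (Q + 1) * CL) (K6 / c1) with hC'
  have hC'p : 0 < C' := lt_of_lt_of_le (by positivity) (le_max_left _ _)
  set K7 : ℝ := C1 + (C1 + 1 + Cc * C' * G) * D5 with hK7
  have hK70 : 0 < K7 := by positivity
  set s0 : ℝ := min μ0 (min (μ0 / K6) (μ0 / K7)) with hs0
  have hs0p : 0 < s0 := lt_min hμ0p (lt_min (by positivity) (by positivity))
  refine ⟨s0, hs0p, max (K6 * M) (K7 * M), ?_⟩
  intro ι V _ S σ φ b hσ hσs h
  have hσμ : σ ≤ μ0 := hσs.trans (min_le_left _ _)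
  have hσ6 : K6 * σ ≤ μ0 := by
    have h1 : σ ≤ μ0 / K6 := hσs.trans ((min_le_right _ _).trans (min_le_left _ _))
    rw [le_div_iff₀ hK60] at h1
    linarith
  have hσ7 : K7 * σ ≤ μ0 := by
    have h1 : σ ≤ μ0 / K7 := hσs.trans ((min_le_right _ _).trans (min_le_right _ _))
    rw [le_div_iff₀ hK70] at h1
    linarith
  have hb3 : 2 * (N0 : ℝ) ^ 2 * (CL * (σ + μ0) + 2 * e1) ≤ e3 := by
    rw [← hQ]
    have h1 : Q * (CL * (σ + μ0)) ≤ Q * (CL * (2 * μ0)) :=
      mul_le_mul_of_nonneg_left (mul_le_mul_of_nonneg_left (by linarith) hCL.le) hQ0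
    have h2 : Q * (CL * (σ + μ0) + 2 * e1) = Q * (CL * (σ + μ0)) + Q * (2 * e1) := by ring
    rw [h2]
    linarith
  obtain ⟨φ0, hφ0⟩ := hnum φ
  set δ := |φ0 - φ| with hδ
  have hδ0 : 0 ≤ δ := abs_nonneg _
  rcases le_or_gt δ (C' * σ) with hcase | hcase
  · -- case II
    refine le_trans ?_ (le_max_right _ _)
    obtain ⟨f, hf⟩ := h.cut μ0 ∅ k0 hμ0p le_rfl (Finset.empty_subset _) hk1
    obtain ⟨F, hF⟩ := exists_label f hf.cl
    have hcore := h.core hCL.le hCc.le hC5.le hσ.le le_rfl hkp hf hF hGG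
    have hdd := h.dd_sum hC5.le hkp hf hF
    have hRp : ∑ x ∈ S.W.image S.c, F x * S.Rp x =
        (φ0 - φ) * ∑ x ∈ S.W.image S.c, F x * (S.dd x : ℝ) := by
      rw [Finset.mul_sum]
      refine Finset.sum_congr rfl fun x hx => ?_
      obtain ⟨v, hv, rfl⟩ := Finset.mem_image.mp hx
      by_cases h0 : 0 < f v
      · rw [h.rp_eq hCL.le hσ.le he1p.le hφ0 hμ0p.le le_rfl hb3 hf hv h0]; ring
      · have h3 : F (S.c v) = 0 := by
          rw [hF v hv]
          exact le_antisymm (not_lt.mp h0) (hf.nn v)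
        rw [h3]; ring
    have h1 : -(∑ x ∈ S.W.image S.c, F x * S.Rp x) ≤
        C' * σ * ((S.ngood (S.bad μ0) f).card * G) := by
      rw [hRp]
      calc -((φ0 - φ) * ∑ x ∈ S.W.image S.c, F x * (S.dd x : ℝ)) ≤
            |(φ0 - φ) * ∑ x ∈ S.W.image S.c, F x * (S.dd x : ℝ)| := neg_le_abs _
        _ = δ * |∑ x ∈ S.W.image S.c, F x * (S.dd x : ℝ)| := by rw [abs_mul]
        _ ≤ δ * ((S.ngood (S.bad μ0) f).card * G) := mul_le_mul_of_nonneg_left hdd hδ0
        _ ≤ _ := mul_le_mul_of_nonneg_right hcase (by positivity)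
    have h2 := mul_le_mul_of_nonneg_left h1 hCc.le
    have hng : ((S.ngood (S.bad μ0) f).card : ℝ) ≤ D5 * (S.bad μ0).card := by
      have := hf.near
      rw [Finset.card_empty, Nat.cast_zero, add_zero] at this
      exact this
    have hfin : σ * b < K7 * σ * (S.bad μ0).card - ∑ i ∈ S.bad μ0, S.m i := by
      have h3 : (C1 + 1 + Cc * C' * G) * σ * ((S.ngood (S.bad μ0) f).card : ℝ) ≤
          (C1 + 1 + Cc * C' * G) * σ * (D5 * (S.bad μ0).card) :=
        mul_le_mul_of_nonneg_left hng (by positivity)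
      have h4 : K7 * σ * (S.bad μ0).card = C1 * σ * (S.bad μ0).card
          + (C1 + 1 + Cc * C' * G) * σ * (D5 * (S.bad μ0).card) := by rw [hK7]; ring
      have h5 : (C1 + 1 + Cc * C' * G) * σ * ((S.ngood (S.bad μ0) f).card : ℝ) =
          (C1 + 1) * σ * (S.ngood (S.bad μ0) f).card
          + Cc * (C' * σ * ((S.ngood (S.bad μ0) f).card * G)) := by ring
      rw [h4]
      linarith
    have hbc : μ0 * (((S.bad μ0).card : ℝ) - M) ≤ ∑ i ∈ S.bad μ0, S.m i := by
      rcases h.bad_card (μ := μ0) with h6 | h6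
      · exact h6
      · exact absurd hμ0p (not_lt.mpr h6.le)
    exact near_fin hσ hK70.le hσ7 (Finset.sum_nonneg fun i _ => h.mnn i) hbc hfin
  · -- case I
    refine le_trans ?_ (le_max_left _ _)
    have hδp : 0 < δ := lt_trans (by positivity) hcase
    set μ := min μ0 (c1 * δ) with hμ
    have hμp : 0 < μ := lt_min hμ0p (by positivity)
    have hμμ : μ ≤ μ0 := min_le_left _ _
    have hKμ : K6 * σ ≤ μ := by
      apply le_min hσ6
      have h1 : K6 / c1 ≤ C' := le_max_right _ _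
      rw [div_le_iff₀ hc1p] at h1
      have h2 : C' * σ * c1 ≤ δ * c1 := mul_le_mul_of_nonneg_right hcase.le hc1p.le
      have h3 : K6 * σ ≤ C' * c1 * σ := mul_le_mul_of_nonneg_right h1 hσ.le
      calc K6 * σ ≤ C' * c1 * σ := h3
        _ = C' * σ * c1 := by ring
        _ ≤ δ * c1 := h2
        _ = _ := by ring
    have hup : Q * (CL * (σ + μ)) < δ := by
      have h1 : 4 * (Q + 1) * CL * σ ≤ δ :=
        (mul_le_mul_of_nonneg_right (le_max_left _ _) hσ.le).trans hcase.le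
      have h2 : 4 * (Q + 1) * CL * μ ≤ δ := by
        have h3 : μ ≤ c1 * δ := min_le_right _ _
        have h4 := mul_le_mul_of_nonneg_left h3 (by positivity : 0 ≤ 4 * (Q + 1) * CL)
        have h5 : 4 * (Q + 1) * CL * (c1 * δ) = δ := by
          rw [hc1]; field_simp
        linarith
      have h6 : 0 ≤ CL * σ := by positivity
      have h7 : 0 ≤ CL * μ := by positivity
      nlinarith
    obtain ⟨f, hf⟩ := h.cut μ ∅ k0 hμp hμμ (Finset.empty_subset _) hk1
    obtain ⟨F, hF⟩ := exists_label f hf.cl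
    have hReq : ∀ v ∈ S.W, 0 < f v → S.Rp (S.c v) = (φ0 - φ) * S.dd (S.c v) ∧
        S.Rp (S.c v) < δ := by
      intro v hv h0
      refine ⟨h.rp_eq hCL.le hσ.le he1p.le hφ0 hμp.le hμμ hb3 hf hv h0, ?_⟩
      have := h.rp_up hCL.le hσ.le hμp.le hμμ hf hv h0
      exact lt_of_le_of_lt this hup
    have hcnt := h.count hC5.le hkp hf hF hδp hδ.symm hReq
    set X := S.W.filter fun v => 0 < f v ∧ S.dd (S.c v) ≠ 0 with hX
    have hng : ((S.ngood (S.bad μ) f).card : ℝ) ≤ D5 * (S.bad μ).card := by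
      have := hf.near
      rw [Finset.card_empty, Nat.cast_zero, add_zero] at this
      exact this
    have hXc : (X.card : ℝ) ≤ K4 * (S.bad μ).card := by
      refine hcnt.trans ?_
      calc (N0 : ℝ) * (G + N0) * (S.ngood (S.bad μ) f).card ≤
            N0 * (G + N0) * (D5 * (S.bad μ).card) :=
              mul_le_mul_of_nonneg_left hng (by positivity)
        _ = _ := by rw [hK4]; ring
    obtain ⟨g, hg⟩ := h.cut μ X k0 hμp hμμ (Finset.filter_subset _ _) hk1
    obtain ⟨H, hH⟩ := exists_label g hg.cl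
    have hcore := h.core hCL.le hCc.le hC5.le hσ.le hμμ hkp hg hH hGG
    have hRp : ∑ x ∈ S.W.image S.c, H x * S.Rp x = 0 := by
      refine Finset.sum_eq_zero fun x hx => ?_
      obtain ⟨v, hv, rfl⟩ := Finset.mem_image.mp hx
      by_cases h0 : 0 < g v
      · -- the cluster is regular for `f`
        have hfv : 0 < f v := by
          by_contra h1
          have h2 : f v = 0 := le_antisymm (not_lt.mp h1) (hf.nn v)
          obtain ⟨w, hw, hwc, h3⟩ := hf.zero v hv h2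
          rcases h3 with h3 | ⟨i, hi, hwi⟩
          · simp at h3
          · exact hg.good v hv h0 w hw hwc i hwi hi
        have hd0 : S.dd (S.c v) = 0 := by
          by_contra h1
          have h2 : v ∈ X := by
            rw [hX, Finset.mem_filter]
            exact ⟨hv, hfv, h1⟩
          have h3 := hg.zs v h2
          linarith
        rw [(hReq v hv hfv).1, hd0]
        simp
      · have h3 : H (S.c v) = 0 := by
          rw [hH v hv]
          exact le_antisymm (not_lt.mp h0) (hg.nn v)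
        rw [h3, zero_mul]
    rw [hRp, mul_zero, sub_zero] at hcore
    have hng2 : ((S.ngood (S.bad μ) g).card : ℝ) ≤ K5 * (S.bad μ).card := by
      refine hg.near.trans ?_
      calc C5 * k0 ^ 2 * (((S.bad μ).card : ℝ) + X.card) ≤
            D5 * ((S.bad μ).card + K4 * (S.bad μ).card) :=
              mul_le_mul_of_nonneg_left (by linarith) hD50.le
        _ = _ := by rw [hK5]; ring
    have hfin : σ * b < K6 * σ * (S.bad μ).card - ∑ i ∈ S.bad μ, S.m i := by
      have h3 : (C1 + 1) * σ * ((S.ngood (S.bad μ) g).card : ℝ) ≤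
          (C1 + 1) * σ * (K5 * (S.bad μ).card) :=
        mul_le_mul_of_nonneg_left hng2 (by positivity)
      have h4 : K6 * σ * (S.bad μ).card = C1 * σ * (S.bad μ).card
          + (C1 + 1) * σ * (K5 * (S.bad μ).card) := by rw [hK6]; ring
      rw [h4]
      linarith
    have hbc : μ * (((S.bad μ).card : ℝ) - M) ≤ ∑ i ∈ S.bad μ, S.m i := by
      rcases h.bad_card (μ := μ) with h6 | h6
      · exact h6
      · exact absurd hμp (not_lt.mpr h6.le)
    exact near_fin hσ hK60.le hKμ (Finset.sum_nonneg fun i _ => h.mnn i) hbc hfin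

end C2305bA.Sys
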