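import Pool.Agent.W_c2305b_h35.Far1
import Pool.Agent.W_c2305b_h35.Flux

/-!
# Bounded eccentricity, near the parallelograms: definitions

`lean u v` is the small signed angle from `u` to `v`, `A2 v` is the direction of `v` modulo `π`
(twice the argument), `Par o U W r` is the parallelogram with centre `o` and half sides
`r U`, `r W`.
-/

open MeasureTheory Set Module

namespace C2305bA

open C2305b.TL (V cr dt)

/-- The signed angle from `u` to `v`, for vectors in the same open half-plane. -/
noncomputable def lean (u v : V) : ℝ := Real.arctan (cr u v / dt u v)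

/-- Twice the argument: the direction modulo `π`. -/
noncomputable def A2 (v : V) : Real.Angle := ((2 * Complex.arg ⟨v 0, v 1⟩ : ℝ) : Real.Angle)

/-- The parallelogram with centre `o` and half sides `r • U`, `r • W` (if `0 < cr U W`). -/
def Par (o U W : V) (r : ℝ) : Set V :=
  {x | |cr (x - o) W| ≤ r * cr U W ∧ |cr U (x - o)| ≤ r * cr U W}

/-- The four side directions, with the number of quarter turns modulo `2`. -/
def IsSide (U W X : V) (k : ℤ) : Prop :=
  (k = 0 ∧ (X = U ∨ X = -U)) ∨ (k = 1 ∧ (X = W ∨ X = -W))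

/-- `K` is `h`-near the parallelogram with half sides `U`, `W`, in the annulus `1`, `α`. -/
structure NearPar (α h : ℝ) (K : Set V) (U W : V) : Prop where
  conv : Convex ℝ K
  comp : IsCompact K
  hh : 0 ≤ h
  hh1 : h ≤ 1
  a1 : 1 / 2 ≤ cr U W
  nU : ‖U‖ ≤ α
  nW : ‖W‖ ≤ α
  inn : Par 0 U W 1 ⊆ K
  out : K ⊆ Par 0 U W (1 + h)

/-- A cell `P` in the copy `K'` with frame `o`, `U`, `W` and missing area at most `m`. -/
structure CellIn (α h m : ℝ) (P : Set V) (o U W : V) : Prop where
  conv : Convex ℝ P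
  comp : IsCompact P
  hh : 0 ≤ h
  hh1 : h ≤ 1
  hm : 0 ≤ m
  a1 : 1 / 2 ≤ cr U W
  nU : ‖U‖ ≤ α
  nW : ‖W‖ ≤ α
  sub : P ⊆ Par o U W (1 + h)
  miss : volume (Par o U W 1 \ P) ≤ ENNReal.ofReal m

/-- A side with small turning at both ends, for the support directions `t`. -/
def SmallTurn (t : V → V) (ε : ℝ) (p q : V) : Prop :=
  0 < dt (t p) (q - p) ∧ cr (t p) (q - p) ≤ ε * dt (t p) (q - p) ∧
    0 < dt (q - p) (t q) ∧ cr (q - p) (t q) ≤ ε * dt (q - p) (t q)

/-- The turning of a side. -/
noncomputable def turn (t : V → V) (p q : V) : ℝ := lean (t p) (q - p) + lean (q - p) (t q)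

/-- Support directions at the shared boundary points. -/
def Supp {ι : Type*} (D : Set V) (P : ι → Set V) (t : V → V) : Prop :=
  ∀ v ∈ W82.Vb D P, t v ≠ 0 ∧ ∀ x ∈ D, 0 ≤ cr (t v) (x - v)

end C2305bA
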