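import Pool.Agent.W_c2305ba_h79.NearAbs

/-!
# Summation by parts and the gradient bound
-/

open scoped Classical

namespace C2305bA.Sys

variable {ι V : Type} [Fintype ι] (S : Sys ι V)

lemma sum_label {v : V} (hv : v ∈ S.W) (F : V → ℝ) (a : ℝ) :
    ∑ x ∈ S.W.image S.c, F x * (if S.c v = x then a else 0) = F (S.c v) * a := by
  rw [Finset.sum_eq_single (S.c v)]
  · simp
  · intro x _ hx
    rw [if_neg (fun h => hx h.symm), mul_zero]
  · intro h
    exact absurd (Finset.mem_image_of_mem _ hv) h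

variable {S}

lemma sum_parts (hE : ∀ i, ∀ e ∈ S.E i, e.1 ∈ S.W ∧ e.2 ∈ S.W) (F : V → ℝ) :
    ∑ x ∈ S.W.image S.c, F x * S.Rp x =
      (∑ i, ∑ e ∈ (S.E i).filter (fun e => S.lo e),
        (F (S.c e.1) * S.ls i e - F (S.c e.2) * S.le i e))
      - ∑ i, ∑ e ∈ (S.E i).filter (fun e => S.bd e ∧ ¬ S.lo e), F (S.c e.1) * S.tu e := by
  unfold Rp
  simp only [mul_sub, Finset.sum_sub_distrib]
  congr 1
  · congr 1
    · simp only [Finset.mul_sum]
      rw [Finset.sum_comm]
      refine Finset.sum_congr rfl fun i _ => ?_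
      rw [Finset.sum_comm]
      refine Finset.sum_congr rfl fun e he => ?_
      exact S.sum_label (hE i e (Finset.mem_filter.mp he).1).1 F _
    · simp only [Finset.mul_sum]
      rw [Finset.sum_comm]
      refine Finset.sum_congr rfl fun i _ => ?_
      rw [Finset.sum_comm]
      refine Finset.sum_congr rfl fun e he => ?_
      exact S.sum_label (hE i e (Finset.mem_filter.mp he).1).2 F _
  · simp only [Finset.mul_sum]
    rw [Finset.sum_comm]
    refine Finset.sum_congr rfl fun i _ => ?_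
    rw [Finset.sum_comm]
    refine Finset.sum_congr rfl fun e he => ?_
    exact S.sum_label (hE i e (Finset.mem_filter.mp he).1).1 F _

lemma sum_parts_dd (hE : ∀ i, ∀ e ∈ S.E i, e.1 ∈ S.W ∧ e.2 ∈ S.W) (F : V → ℝ) :
    ∑ x ∈ S.W.image S.c, F x * (S.dd x : ℝ) =
      ∑ i, ∑ e ∈ (S.E i).filter (fun e => S.lo e),
        (F (S.c e.1) - F (S.c e.2)) * (S.kk i e : ℝ) := by
  unfold dd
  push_cast
  simp only [Finset.mul_sum]
  rw [Finset.sum_comm]
  refine Finset.sum_congr rfl fun i _ => ?_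
  rw [Finset.sum_comm]
  refine Finset.sum_congr rfl fun e he => ?_
  have h1 := S.sum_label (hE i e (Finset.mem_filter.mp he).1).1 F (S.kk i e : ℝ)
  have h2 := S.sum_label (hE i e (Finset.mem_filter.mp he).1).2 F (S.kk i e : ℝ)
  rw [sub_mul, ← h1, ← h2, ← Finset.sum_sub_distrib]
  refine Finset.sum_congr rfl fun x _ => ?_
  split_ifs <;> push_cast <;> ring

/-- A function on the labels. -/
lemma exists_label (f : V → ℝ) (h : ∀ v ∈ S.W, ∀ w ∈ S.W, S.c v = S.c w → f v = f w) :
    ∃ F : V → ℝ, ∀ v ∈ S.W, F (S.c v) = f v := by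
  refine ⟨fun x => if hx : ∃ v ∈ S.W, S.c v = x then f hx.choose else 0, fun v hv => ?_⟩
  have hx : ∃ w ∈ S.W, S.c w = S.c v := ⟨v, hv, rfl⟩
  simp only [dif_pos hx]
  exact h _ hx.choose_spec.1 v hv hx.choose_spec.2

lemma grad_nonneg (f : V → ℝ) (i : ι) : 0 ≤ S.grad f i :=
  Finset.sum_nonneg fun _ _ => abs_nonneg _

section

variable {N0 M : ℕ} {CL Cc C1 C5 μ0 e1 σ φ b : ℝ}

lemma Ok.eW' (h : S.Ok N0 M CL Cc C1 C5 μ0 e1 σ φ b) :
    ∀ i, ∀ e ∈ S.E i, e.1 ∈ S.W ∧ e.2 ∈ S.W := fun i e he =>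
  ⟨(h.eW i e he).1.1, (h.eW i e he).2.1⟩

/-- The cell inequality. -/
lemma Ok.cell (h : S.Ok N0 M CL Cc C1 C5 μ0 e1 σ φ b) (hCL : 0 ≤ CL) (hσ : 0 ≤ σ)
    {μ : ℝ} (hμ : μ ≤ μ0) {sp : Finset V} {k0 : ℝ} {f : V → ℝ}
    (hf : S.Cut N0 C5 (S.bad μ) sp k0 f) (i : ι) :
    ∑ e ∈ (S.E i).filter (fun e => S.bd e), min (f e.1) (f e.2) * S.tu e ≤
      CL * (σ + S.m i) * S.grad f i
      - ((∑ e ∈ (S.E i).filter (fun e => S.lo e), (f e.1 * S.ls i e - f e.2 * S.le i e))
      - ∑ e ∈ (S.E i).filter (fun e => S.bd e ∧ ¬ S.lo e), f e.1 * S.tu e) := by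
  have hε : 0 ≤ CL * (σ + S.m i) := mul_nonneg hCL (add_nonneg hσ (h.mnn i))
  have hpt : ∀ e ∈ S.E i, (if S.bd e then min (f e.1) (f e.2) * S.tu e else 0) ≤
      CL * (σ + S.m i) * |f e.1 - f e.2|
      - (if S.lo e then (f e.1 * S.ls i e - f e.2 * S.le i e) else 0)
      + (if S.bd e ∧ ¬ S.lo e then f e.1 * S.tu e else 0) := by
    intro e he
    by_cases hi : i ∈ S.bad μ
    · have h1 : f e.1 = 0 := hf.zb _ (h.eW i e he).1.1 i hi (h.eW i e he).1.2
      have h2 : f e.2 = 0 := hf.zb _ (h.eW i e he).2.1 i hi (h.eW i e he).2.2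
      rw [h1, h2]
      simp
    · simp only [bad, Finset.mem_filter, Finset.mem_univ, true_and, not_or, not_lt] at hi
      have hm : S.m i ≤ μ0 := hi.1.trans hμ
      by_cases hl : S.lo e
      · by_cases hb : S.bd e
        · obtain ⟨h1, h2, h3⟩ := h.bdry i hm hi.2 e he hl hb
          have ht := h.tunn i e he hb
          simp only [hb, hl, if_true, not_true_eq_false, and_false, if_false, add_zero]
          rcases le_total (f e.1) (f e.2) with h4 | h4
          · rw [min_eq_left h4, abs_of_nonpos (by linarith), ← h3]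
            have h5 := mul_nonneg (sub_nonneg.mpr h4)
              (by linarith : 0 ≤ CL * (σ + S.m i) + S.le i e)
            linarith [h5, (by ring : (f e.2 - f e.1) * (CL * (σ + S.m i) + S.le i e) =
              CL * (σ + S.m i) * -(f e.1 - f e.2) - (f e.1 * S.ls i e - f e.2 * S.le i e)
              - f e.1 * (S.le i e - S.ls i e))]
          · rw [min_eq_right h4, abs_of_nonneg (by linarith), ← h3]
            have h5 := mul_nonneg (sub_nonneg.mpr h4)
              (by linarith : 0 ≤ CL * (σ + S.m i) - S.ls i e)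
            linarith [h5, (by ring : (f e.1 - f e.2) * (CL * (σ + S.m i) - S.ls i e) =
              CL * (σ + S.m i) * (f e.1 - f e.2) - (f e.1 * S.ls i e - f e.2 * S.le i e)
              - f e.2 * (S.le i e - S.ls i e))]
        · obtain ⟨h1, h2⟩ := h.inner i hm hi.2 e he hl hb
          simp only [hb, hl, if_true, if_false, false_and, add_zero]
          rw [h1]
          have h3 : f e.1 * S.ls i e - f e.2 * S.ls i e ≤
              CL * (σ + S.m i) * |f e.1 - f e.2| := by
            calc f e.1 * S.ls i e - f e.2 * S.ls i e = (f e.1 - f e.2) * S.ls i e := by ring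
              _ ≤ |(f e.1 - f e.2) * S.ls i e| := le_abs_self _
              _ = |f e.1 - f e.2| * |S.ls i e| := abs_mul _ _
              _ ≤ |f e.1 - f e.2| * (CL * (σ + S.m i)) :=
                mul_le_mul_of_nonneg_left h2 (abs_nonneg _)
              _ = _ := by ring
          linarith
      · have h1 : f e.1 = f e.2 := hf.cl _ (h.eW i e he).1.1 _ (h.eW i e he).2.1
          (h.short i e he hl)
        by_cases hb : S.bd e
        · simp [hb, hl, h1]
        · simp only [hb, hl, if_false, false_and, add_zero, sub_zero]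
          exact mul_nonneg hε (abs_nonneg _)
  have hsum := Finset.sum_le_sum hpt
  rw [Finset.sum_add_distrib, Finset.sum_sub_distrib, ← Finset.mul_sum] at hsum
  rw [Finset.sum_filter, Finset.sum_filter, Finset.sum_filter]
  unfold grad
  linarith

/-- The turning far away. -/
lemma Ok.far (h : S.Ok N0 M CL Cc C1 C5 μ0 e1 σ φ b) (hCL : 0 ≤ CL) (hσ : 0 ≤ σ)
    {μ : ℝ} (hμ : μ ≤ μ0) {sp : Finset V} {k0 : ℝ} {f : V → ℝ}
    (hf : S.Cut N0 C5 (S.bad μ) sp k0 f) {F : V → ℝ} (hF : ∀ v ∈ S.W, F (S.c v) = f v) :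
    ∑ i, ∑ e ∈ (S.E i).filter (fun e => S.bd e), min (f e.1) (f e.2) * S.tu e ≤
      (∑ i, CL * (σ + S.m i) * S.grad f i) - ∑ x ∈ S.W.image S.c, F x * S.Rp x := by
  rw [sum_parts h.eW' F]
  have h1 : ∀ i, ∑ e ∈ (S.E i).filter (fun e => S.lo e),
      (F (S.c e.1) * S.ls i e - F (S.c e.2) * S.le i e) =
      ∑ e ∈ (S.E i).filter (fun e => S.lo e), (f e.1 * S.ls i e - f e.2 * S.le i e) := by
    intro i
    refine Finset.sum_congr rfl fun e he => ?_
    have := h.eW' i e (Finset.mem_filter.mp he).1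
    rw [hF _ this.1, hF _ this.2]
  have h2 : ∀ i, ∑ e ∈ (S.E i).filter (fun e => S.bd e ∧ ¬ S.lo e), F (S.c e.1) * S.tu e =
      ∑ e ∈ (S.E i).filter (fun e => S.bd e ∧ ¬ S.lo e), f e.1 * S.tu e := by
    intro i
    refine Finset.sum_congr rfl fun e he => ?_
    have := h.eW' i e (Finset.mem_filter.mp he).1
    rw [hF _ this.1]
  simp only [h1, h2]
  rw [← Finset.sum_sub_distrib, ← Finset.sum_sub_distrib]
  exact Finset.sum_le_sum fun i _ => h.cell hCL hσ hμ hf i

/-- The gradient of a cut-off function on a cell. -/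
lemma Ok.grad_le (h : S.Ok N0 M CL Cc C1 C5 μ0 e1 σ φ b) {bd : Finset ι}
    {sp : Finset V} {k0 : ℝ} {f : V → ℝ} (hC5 : 0 ≤ C5) (hk : 0 < k0)
    (hf : S.Cut N0 C5 bd sp k0 f) (i : ι) : S.grad f i ≤ 2 * N0 * (C5 / k0) := by
  have hq : 0 ≤ C5 / k0 := div_nonneg hC5 hk.le
  unfold grad
  set A := (S.E i).filter (fun e => 0 < f e.1 ∨ 0 < f e.2) with hA
  have h1 : ∑ e ∈ S.E i, |f e.1 - f e.2| = ∑ e ∈ A, |f e.1 - f e.2| := by
    rw [hA, Finset.sum_filter]
    refine Finset.sum_congr rfl fun e _ => ?_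
    split_ifs with h0
    · rfl
    · rw [not_or, not_lt, not_lt] at h0
      have ha := le_antisymm h0.1 (hf.nn _)
      have hb := le_antisymm h0.2 (hf.nn _)
      rw [ha, hb]
      simp
  have h2 : (A.card : ℝ) ≤ 2 * N0 := by
    have h3 : A ⊆ (S.E i).filter (fun e => 0 < f e.1) ∪ (S.E i).filter (fun e => 0 < f e.2) := by
      intro e he
      rw [hA, Finset.mem_filter] at he
      rw [Finset.mem_union, Finset.mem_filter, Finset.mem_filter]
      rcases he.2 with h4 | h4
      · exact Or.inl ⟨he.1, h4⟩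
      · exact Or.inr ⟨he.1, h4⟩
    have h4 : ((S.E i).filter (fun e => 0 < f e.1)).card ≤ N0 := by
      refine le_trans ?_ (hf.cellpts i)
      apply Finset.card_le_card_of_injOn (fun e => e.1)
      · intro e he
        rw [Finset.mem_coe, Finset.mem_filter] at he
        rw [Finset.mem_coe, Finset.mem_filter]
        exact ⟨(h.eW i e he.1).1.1, (h.eW i e he.1).1.2, he.2⟩
      · intro e he e' he' hee
        rw [Finset.mem_coe, Finset.mem_filter] at he he'
        exact h.out i e he.1 e' he'.1 hee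
    have h5 : ((S.E i).filter (fun e => 0 < f e.2)).card ≤ N0 := by
      refine le_trans ?_ (hf.cellpts i)
      apply Finset.card_le_card_of_injOn (fun e => e.2)
      · intro e he
        rw [Finset.mem_coe, Finset.mem_filter] at he
        rw [Finset.mem_coe, Finset.mem_filter]
        exact ⟨(h.eW i e he.1).2.1, (h.eW i e he.1).2.2, he.2⟩
      · intro e he e' he' hee
        rw [Finset.mem_coe, Finset.mem_filter] at he he'
        exact h.inn i e he.1 e' he'.1 hee
    have h6 := (Finset.card_le_card h3).trans (Finset.card_union_le _ _)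
    have h7 : A.card ≤ 2 * N0 := by omega
    exact_mod_cast h7
  rw [h1]
  calc ∑ e ∈ A, |f e.1 - f e.2| ≤ ∑ _e ∈ A, C5 / k0 := by
        refine Finset.sum_le_sum fun e he => ?_
        rw [hA, Finset.mem_filter] at he
        exact hf.lip i _ (h.eW i e he.1).1.1 _ (h.eW i e he.1).2.1 (h.eW i e he.1).1.2
          (h.eW i e he.1).2.2
    _ = A.card * (C5 / k0) := by rw [Finset.sum_const, nsmul_eq_mul]
    _ ≤ 2 * N0 * (C5 / k0) := mul_le_mul_of_nonneg_right h2 hq

lemma Ok.grad_zero (h : S.Ok N0 M CL Cc C1 C5 μ0 e1 σ φ b) {bd : Finset ι}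
    {sp : Finset V} {k0 : ℝ} {f : V → ℝ} (hf : S.Cut N0 C5 bd sp k0 f) {i : ι}
    (hi : i ∉ S.near f ∨ i ∈ bd) : S.grad f i = 0 := by
  unfold grad
  refine Finset.sum_eq_zero fun e he => ?_
  obtain ⟨⟨h1, h2⟩, h3, h4⟩ := h.eW i e he
  rcases hi with hi | hi
  · have hone : ∀ v ∈ S.W, S.In v i → f v = 1 := by
      intro v hv hvi
      by_contra hne
      apply hi
      rw [near, Finset.mem_filter]
      exact ⟨Finset.mem_univ _, v, hv, hvi, lt_of_le_of_ne (hf.le1 v) hne⟩
    rw [hone _ h1 h2, hone _ h3 h4]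
    simp
  · rw [hf.zb _ h1 i hi h2, hf.zb _ h3 i hi h4]
    simp

end

end C2305bA.Sys
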