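import Pool.Agent.W_c2305ba_h79.NearAbs2

/-!
# The size of the cluster sums, and the core inequality
-/

open scoped Classical

namespace C2305bA.Sys

variable {ι V : Type} [Fintype ι] {S : Sys ι V}

section

variable {N0 M : ℕ} {CL Cc C1 C5 μ0 e1 σ φ b : ℝ}

/-- The number of dart ends at a cluster. -/
noncomputable def ends (S : Sys ι V) (x : V) : ℝ :=
  ∑ i, ∑ e ∈ S.E i, ((if S.c e.1 = x then (1 : ℝ) else 0) + (if S.c e.2 = x then 1 else 0))

lemma Ok.ends_le (h : S.Ok N0 M CL Cc C1 C5 μ0 e1 σ φ b) {bd : Finset ι}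
    {sp : Finset V} {k0 : ℝ} {f : V → ℝ} (hf : S.Cut N0 C5 bd sp k0 f) {v : V} (hv : v ∈ S.W)
    (hv0 : 0 < f v) : S.ends (S.c v) ≤ 2 * (N0 : ℝ) ^ 2 := by
  set A := Finset.univ.filter fun i => ∃ w ∈ S.W, S.In w i ∧ S.c w = S.c v with hA
  have hcell : ∀ i, ∑ e ∈ S.E i, ((if S.c e.1 = S.c v then (1 : ℝ) else 0)
      + (if S.c e.2 = S.c v then 1 else 0)) ≤ if i ∈ A then 2 * (N0 : ℝ) else 0 := by
    intro i
    split_ifs with hi
    · rw [Finset.sum_add_distrib, ← Finset.sum_filter, ← Finset.sum_filter, Finset.sum_const,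
        Finset.sum_const, nsmul_eq_mul, nsmul_eq_mul, mul_one, mul_one]
      have h1 : ((S.E i).filter fun e => S.c e.1 = S.c v).card ≤ N0 := by
        refine le_trans ?_ (hf.pts v hv hv0)
        apply Finset.card_le_card_of_injOn (fun e => e.1)
        · intro e he
          rw [Finset.mem_coe, Finset.mem_filter] at he
          rw [Finset.mem_coe, Finset.mem_filter]
          exact ⟨(h.eW i e he.1).1.1, he.2⟩
        · intro e he e' he' hee
          rw [Finset.mem_coe, Finset.mem_filter] at he he'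
          exact h.out i e he.1 e' he'.1 hee
      have h2 : ((S.E i).filter fun e => S.c e.2 = S.c v).card ≤ N0 := by
        refine le_trans ?_ (hf.pts v hv hv0)
        apply Finset.card_le_card_of_injOn (fun e => e.2)
        · intro e he
          rw [Finset.mem_coe, Finset.mem_filter] at he
          rw [Finset.mem_coe, Finset.mem_filter]
          exact ⟨(h.eW i e he.1).2.1, he.2⟩
        · intro e he e' he' hee
          rw [Finset.mem_coe, Finset.mem_filter] at he he'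
          exact h.inn i e he.1 e' he'.1 hee
      have h3 : ((((S.E i).filter fun e => S.c e.1 = S.c v).card : ℕ) : ℝ) ≤ N0 := by
        exact_mod_cast h1
      have h4 : ((((S.E i).filter fun e => S.c e.2 = S.c v).card : ℕ) : ℝ) ≤ N0 := by
        exact_mod_cast h2
      linarith
    · refine le_of_eq (Finset.sum_eq_zero fun e he => ?_)
      have h1 : S.c e.1 ≠ S.c v := by
        intro h0
        apply hi
        rw [hA, Finset.mem_filter]
        exact ⟨Finset.mem_univ _, e.1, (h.eW i e he).1.1, (h.eW i e he).1.2, h0⟩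
      have h2 : S.c e.2 ≠ S.c v := by
        intro h0
        apply hi
        rw [hA, Finset.mem_filter]
        exact ⟨Finset.mem_univ _, e.2, (h.eW i e he).2.1, (h.eW i e he).2.2, h0⟩
      rw [if_neg h1, if_neg h2, add_zero]
  have hAc : (A.card : ℝ) ≤ N0 := by exact_mod_cast hf.cells v hv hv0
  unfold ends
  calc _ ≤ ∑ i, (if i ∈ A then 2 * (N0 : ℝ) else 0) := Finset.sum_le_sum fun i _ => hcell i
    _ = A.card * (2 * N0) := by
      rw [← Finset.sum_filter, Finset.filter_mem_eq_inter, Finset.univ_inter, Finset.sum_const,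
        nsmul_eq_mul]
    _ ≤ N0 * (2 * N0) := mul_le_mul_of_nonneg_right hAc (by positivity)
    _ = _ := by ring

/-- All cells at a cluster with `f > 0` are good. -/
lemma good_of_pos {μ : ℝ} {sp : Finset V} {k0 : ℝ} {f : V → ℝ}
    (hf : S.Cut N0 C5 (S.bad μ) sp k0 f) {v : V} (hv : v ∈ S.W) (hv0 : 0 < f v) {w : V}
    (hw : w ∈ S.W) (hc : S.c w = S.c v) {i : ι} (hi : S.In w i) : S.m i ≤ μ ∧ ¬ S.Sp i := by
  have := hf.good v hv hv0 w hw hc i hi
  simp only [bad, Finset.mem_filter, Finset.mem_univ, true_and, not_or, not_lt] at this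
  exact this

lemma Ok.term_up (h : S.Ok N0 M CL Cc C1 C5 μ0 e1 σ φ b) (hCL : 0 ≤ CL) (hσ : 0 ≤ σ)
    {μ : ℝ} (hμ : μ ≤ μ0) {i : ι} (hm : S.m i ≤ μ) (hs : ¬ S.Sp i) {e : V × V} (he : e ∈ S.E i)
    (hl : S.lo e) : S.ls i e ≤ CL * (σ + μ) ∧ -(CL * (σ + μ)) ≤ S.le i e := by
  have h0 : CL * (σ + S.m i) ≤ CL * (σ + μ) := mul_le_mul_of_nonneg_left (by linarith) hCL
  by_cases hb : S.bd e
  · obtain ⟨h1, h2, -⟩ := h.bdry i (hm.trans hμ) hs e he hl hb
    exact ⟨by linarith, by linarith⟩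
  · obtain ⟨h1, h2⟩ := h.inner i (hm.trans hμ) hs e he hl hb
    have h3 := abs_le.mp h2
    rw [h1]
    exact ⟨by linarith, by linarith⟩

lemma Ok.term_abs (h : S.Ok N0 M CL Cc C1 C5 μ0 e1 σ φ b) (hCL : 0 ≤ CL) (hσ : 0 ≤ σ)
    (he1 : 0 ≤ e1)
    {μ : ℝ} (hμ : μ ≤ μ0) {i : ι} (hm : S.m i ≤ μ) (hs : ¬ S.Sp i) {e : V × V} (he : e ∈ S.E i)
    (hl : S.lo e) : |S.ls i e| ≤ CL * (σ + μ) + e1 ∧ |S.le i e| ≤ CL * (σ + μ) + e1 := by
  have h0 : CL * (σ + S.m i) ≤ CL * (σ + μ) := mul_le_mul_of_nonneg_left (by linarith) hCL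
  by_cases hb : S.bd e
  · obtain ⟨h1, h2, h3⟩ := h.bdry i (hm.trans hμ) hs e he hl hb
    have h4 := h.tu1 i (hm.trans hμ) hs e he hb
    rw [abs_le, abs_le]
    refine ⟨⟨by linarith, by linarith⟩, ⟨by linarith, by linarith⟩⟩
  · obtain ⟨h1, h2⟩ := h.inner i (hm.trans hμ) hs e he hl hb
    rw [h1]
    exact ⟨by linarith, by linarith⟩

/-- Upper bound of the cluster sum. -/
lemma Ok.rp_up (h : S.Ok N0 M CL Cc C1 C5 μ0 e1 σ φ b) (hCL : 0 ≤ CL) (hσ : 0 ≤ σ)
    {μ : ℝ} (hμ0 : 0 ≤ μ) (hμ : μ ≤ μ0) {sp : Finset V} {k0 : ℝ} {f : V → ℝ}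
    (hf : S.Cut N0 C5 (S.bad μ) sp k0 f) {v : V} (hv : v ∈ S.W) (hv0 : 0 < f v) :
    S.Rp (S.c v) ≤ 2 * (N0 : ℝ) ^ 2 * (CL * (σ + μ)) := by
  have hε : 0 ≤ CL * (σ + μ) := mul_nonneg hCL (by linarith)
  have h1 : ∑ i, ∑ e ∈ (S.E i).filter (fun e => S.lo e),
      ((if S.c e.1 = S.c v then S.ls i e else 0) - (if S.c e.2 = S.c v then S.le i e else 0)) ≤
      S.ends (S.c v) * (CL * (σ + μ)) := by
    unfold ends
    rw [Finset.sum_mul]
    refine Finset.sum_le_sum fun i _ => ?_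
    rw [Finset.sum_mul, Finset.sum_filter]
    refine Finset.sum_le_sum fun e he => ?_
    by_cases hl : S.lo e
    · rw [if_pos hl]
      by_cases ha : S.c e.1 = S.c v
      · obtain ⟨hm, hs⟩ := good_of_pos hf hv hv0 (h.eW i e he).1.1 ha (h.eW i e he).1.2
        obtain ⟨h2, h3⟩ := h.term_up hCL hσ hμ hm hs he hl
        rw [if_pos ha, if_pos ha]
        split_ifs <;> linarith
      · by_cases hb : S.c e.2 = S.c v
        · obtain ⟨hm, hs⟩ := good_of_pos hf hv hv0 (h.eW i e he).2.1 hb (h.eW i e he).2.2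
          obtain ⟨h2, h3⟩ := h.term_up hCL hσ hμ hm hs he hl
          rw [if_neg ha, if_neg ha, if_pos hb, if_pos hb]
          linarith
        · rw [if_neg ha, if_neg ha, if_neg hb, if_neg hb]
          linarith
    · rw [if_neg hl]
      apply mul_nonneg _ hε
      split_ifs <;> norm_num
  have h2 : 0 ≤ ∑ i, ∑ e ∈ (S.E i).filter (fun e => S.bd e ∧ ¬ S.lo e),
      (if S.c e.1 = S.c v then S.tu e else 0) := by
    refine Finset.sum_nonneg fun i _ => Finset.sum_nonneg fun e he => ?_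
    rw [Finset.mem_filter] at he
    split_ifs
    · exact h.tunn i e he.1 he.2.1
    · exact le_rfl
  have h3 := mul_le_mul_of_nonneg_right (h.ends_le hf hv hv0) hε
  unfold Rp
  linarith

/-- Absolute bound of the cluster sum. -/
lemma Ok.rp_abs (h : S.Ok N0 M CL Cc C1 C5 μ0 e1 σ φ b) (hCL : 0 ≤ CL) (hσ : 0 ≤ σ)
    (he1 : 0 ≤ e1)
    {μ : ℝ} (hμ0 : 0 ≤ μ) (hμ : μ ≤ μ0) {sp : Finset V} {k0 : ℝ} {f : V → ℝ}
    (hf : S.Cut N0 C5 (S.bad μ) sp k0 f) {v : V} (hv : v ∈ S.W) (hv0 : 0 < f v) :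
    |S.Rp (S.c v)| ≤ 2 * (N0 : ℝ) ^ 2 * (CL * (σ + μ) + 2 * e1) := by
  have hε : 0 ≤ CL * (σ + μ) := mul_nonneg hCL (by linarith)
  have h1 : |∑ i, ∑ e ∈ (S.E i).filter (fun e => S.lo e),
      ((if S.c e.1 = S.c v then S.ls i e else 0) - (if S.c e.2 = S.c v then S.le i e else 0))| ≤
      S.ends (S.c v) * (CL * (σ + μ) + e1) := by
    refine (Finset.abs_sum_le_sum_abs _ _).trans ?_
    unfold ends
    rw [Finset.sum_mul]
    refine Finset.sum_le_sum fun i _ => ?_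
    refine (Finset.abs_sum_le_sum_abs _ _).trans ?_
    rw [Finset.sum_mul, Finset.sum_filter]
    refine Finset.sum_le_sum fun e he => ?_
    by_cases hl : S.lo e
    · rw [if_pos hl]
      by_cases ha : S.c e.1 = S.c v
      · obtain ⟨hm, hs⟩ := good_of_pos hf hv hv0 (h.eW i e he).1.1 ha (h.eW i e he).1.2
        obtain ⟨h2, h3⟩ := h.term_abs hCL hσ he1 hμ hm hs he hl
        rw [if_pos ha, if_pos ha]
        split_ifs
        · refine (abs_sub _ _).trans ?_
          linarith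
        · rw [sub_zero]; linarith
      · by_cases hb : S.c e.2 = S.c v
        · obtain ⟨hm, hs⟩ := good_of_pos hf hv hv0 (h.eW i e he).2.1 hb (h.eW i e he).2.2
          obtain ⟨h2, h3⟩ := h.term_abs hCL hσ he1 hμ hm hs he hl
          rw [if_neg ha, if_neg ha, if_pos hb, if_pos hb, zero_sub, abs_neg]
          linarith
        · rw [if_neg ha, if_neg ha, if_neg hb, if_neg hb]
          simp
    · rw [if_neg hl]
      apply mul_nonneg _ (by linarith)
      split_ifs <;> norm_num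
  have h2 : |∑ i, ∑ e ∈ (S.E i).filter (fun e => S.bd e ∧ ¬ S.lo e),
      (if S.c e.1 = S.c v then S.tu e else 0)| ≤ S.ends (S.c v) * e1 := by
    refine (Finset.abs_sum_le_sum_abs _ _).trans ?_
    unfold ends
    rw [Finset.sum_mul]
    refine Finset.sum_le_sum fun i _ => ?_
    refine (Finset.abs_sum_le_sum_abs _ _).trans ?_
    rw [Finset.sum_mul, Finset.sum_filter]
    refine Finset.sum_le_sum fun e he => ?_
    split_ifs with hl ha hb
    all_goals first
      | (have hgm := good_of_pos hf hv hv0 (h.eW i e he).1.1 ha (h.eW i e he).1.2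
         have h5 := h.tunn i e he hl.1
         have h6 := h.tu1 i (hgm.1.trans hμ) hgm.2 e he hl.1
         rw [abs_of_nonneg h5]
         linarith)
      | (simp; try linarith)
  have h3 : 0 ≤ S.ends (S.c v) := by
    unfold ends
    refine Finset.sum_nonneg fun i _ => Finset.sum_nonneg fun e _ => ?_
    split_ifs <;> norm_num
  have h4 := mul_le_mul_of_nonneg_right (h.ends_le hf hv hv0)
    (by linarith : 0 ≤ CL * (σ + μ) + 2 * e1)
  unfold Rp
  refine (abs_sub _ _).trans ?_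
  linarith

/-- Bound of the integer of a cluster. -/
lemma Ok.dd_abs (h : S.Ok N0 M CL Cc C1 C5 μ0 e1 σ φ b)
    {bd : Finset ι} {sp : Finset V} {k0 : ℝ} {f : V → ℝ}
    (hf : S.Cut N0 C5 bd sp k0 f) {v : V} (hv : v ∈ S.W) (hv0 : 0 < f v) :
    |S.dd (S.c v)| ≤ ((2 * N0 ^ 2 : ℕ) : ℤ) := by
  have h1 : ((|S.dd (S.c v)| : ℤ) : ℝ) ≤ S.ends (S.c v) := by
    unfold dd ends
    push_cast
    refine (Finset.abs_sum_le_sum_abs _ _).trans ?_
    refine Finset.sum_le_sum fun i _ => ?_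
    refine (Finset.abs_sum_le_sum_abs _ _).trans ?_
    rw [Finset.sum_filter]
    refine Finset.sum_le_sum fun e he => ?_
    have hk : |(S.kk i e : ℝ)| ≤ 1 := by exact_mod_cast h.kk1 i e he
    split_ifs <;> simp_all [abs_mul] <;> linarith
  have h2 := h1.trans (h.ends_le hf hv hv0)
  exact_mod_cast h2

/-- The cluster sum from the resonance angle. -/
lemma Ok.rp_eq (h : S.Ok N0 M CL Cc C1 C5 μ0 e1 σ φ b) (hCL : 0 ≤ CL) (hσ : 0 ≤ σ)
    (he1 : 0 ≤ e1) {e3 φ0 : ℝ}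
    (hnum : ∀ d z : ℤ, |d| ≤ ((2 * N0 ^ 2 : ℕ) : ℤ) → |Real.pi * z - φ * d| ≤ e3 →
      Real.pi * z = φ0 * d)
    {μ : ℝ} (hμ0 : 0 ≤ μ) (hμ : μ ≤ μ0)
    (he3 : 2 * (N0 : ℝ) ^ 2 * (CL * (σ + μ0) + 2 * e1) ≤ e3) {sp : Finset V} {k0 : ℝ}
    {f : V → ℝ}
    (hf : S.Cut N0 C5 (S.bad μ) sp k0 f) {v : V} (hv : v ∈ S.W) (hv0 : 0 < f v) :
    S.Rp (S.c v) = (φ0 - φ) * S.dd (S.c v) := by
  obtain ⟨z, hz⟩ := h.clus (S.c v) (Finset.mem_image_of_mem _ hv) (by
    intro w hw hc i hi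
    have := good_of_pos hf hv hv0 hw hc hi
    exact ⟨this.1.trans hμ, this.2⟩)
  have h1 := h.rp_abs hCL hσ he1 hμ0 hμ hf hv hv0
  have h2 : 2 * (N0 : ℝ) ^ 2 * (CL * (σ + μ) + 2 * e1) ≤
      2 * (N0 : ℝ) ^ 2 * (CL * (σ + μ0) + 2 * e1) := by
    apply mul_le_mul_of_nonneg_left _ (by positivity)
    have := mul_le_mul_of_nonneg_left (add_le_add_right hμ σ) hCL
    linarith
  have h3 := hnum (S.dd (S.c v)) z (h.dd_abs hf hv hv0) (by rw [← hz]; linarith)
  rw [hz, h3]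
  ring

end

end C2305bA.Sys
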