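import Pool.Agent.W_c2305ba_h79.NearAbs3

/-!
# The core inequality
-/

open scoped Classical

namespace C2305bA.Sys

variable {ι V : Type} [Fintype ι] {S : Sys ι V}

section

variable {N0 M : ℕ} {CL Cc C1 C5 μ0 e1 σ φ b : ℝ}

/-- Good cells on which `f` is not `1`. -/
noncomputable def ngood (S : Sys ι V) (bd : Finset ι) (f : V → ℝ) : Finset ι :=
  Finset.univ.filter fun i => i ∉ bd ∧ ∃ v ∈ S.W, S.In v i ∧ f v < 1

lemma Ok.sum_grad (h : S.Ok N0 M CL Cc C1 C5 μ0 e1 σ φ b) {bd : Finset ι}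
    {sp : Finset V} {k0 : ℝ} {f : V → ℝ} (hC5 : 0 ≤ C5) (hk : 0 < k0)
    (hf : S.Cut N0 C5 bd sp k0 f) {a : ι → ℝ} (ha : ∀ i, 0 ≤ a i) :
    ∑ i, a i * S.grad f i ≤ (∑ i ∈ S.ngood bd f, a i) * (2 * N0 * (C5 / k0)) := by
  rw [Finset.sum_mul]
  have h1 : ∑ i, a i * S.grad f i = ∑ i ∈ S.ngood bd f, a i * S.grad f i := by
    rw [eq_comm]
    apply Finset.sum_subset (Finset.subset_univ _)
    intro i _ hi
    have h2 : S.grad f i = 0 := by
      apply h.grad_zero hf
      by_cases hb : i ∈ bd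
      · exact Or.inr hb
      · left
        intro hn
        apply hi
        rw [near, Finset.mem_filter] at hn
        rw [ngood, Finset.mem_filter]
        exact ⟨Finset.mem_univ _, hb, hn.2⟩
    rw [h2, mul_zero]
  rw [h1]
  exact Finset.sum_le_sum fun i _ => mul_le_mul_of_nonneg_left (h.grad_le hC5 hk hf i) (ha i)

/-- The core inequality. -/
lemma Ok.core (h : S.Ok N0 M CL Cc C1 C5 μ0 e1 σ φ b) (hCL : 0 ≤ CL) (hCc : 0 ≤ Cc)
    (hC5 : 0 ≤ C5) (hσ : 0 ≤ σ) {μ : ℝ} (hμ : μ ≤ μ0) {sp : Finset V} {k0 : ℝ} (hk : 0 < k0)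
    {f : V → ℝ} (hf : S.Cut N0 C5 (S.bad μ) sp k0 f) {F : V → ℝ}
    (hF : ∀ v ∈ S.W, F (S.c v) = f v) (hG : Cc * CL * (2 * N0 * (C5 / k0)) ≤ 1 / 2) :
    σ * b < C1 * σ * (S.bad μ).card - ∑ i ∈ S.bad μ, S.m i
      + (C1 + 1) * σ * (S.ngood (S.bad μ) f).card
      - Cc * ∑ x ∈ S.W.image S.c, F x * S.Rp x := by
  set B := S.bad μ with hB
  set A := S.ngood B f with hA
  have hdisj : Disjoint B A := by
    rw [Finset.disjoint_left]
    intro i hi hi'
    rw [hA, ngood, Finset.mem_filter] at hi'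
    exact hi'.2.1 hi
  set R := (Finset.univ : Finset ι) \ (B ∪ A) with hR
  have hsplit : ∑ i, (S.cap i - S.loss i) = ∑ i ∈ R, (S.cap i - S.loss i)
      + (∑ i ∈ B, (S.cap i - S.loss i) + ∑ i ∈ A, (S.cap i - S.loss i)) := by
    rw [← Finset.sum_union hdisj, hR, Finset.sum_sdiff (Finset.subset_univ _)]
  have hBs : ∑ i ∈ B, (S.cap i - S.loss i) ≤ C1 * σ * B.card - ∑ i ∈ B, S.m i := by
    calc ∑ i ∈ B, (S.cap i - S.loss i) ≤ ∑ i ∈ B, (C1 * σ - S.m i) :=
          Finset.sum_le_sum fun i _ => h.cl i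
      _ = _ := by rw [Finset.sum_sub_distrib, Finset.sum_const, nsmul_eq_mul]; ring
  have hAs : ∑ i ∈ A, (S.cap i - S.loss i) ≤ C1 * σ * A.card - ∑ i ∈ A, S.m i := by
    calc ∑ i ∈ A, (S.cap i - S.loss i) ≤ ∑ i ∈ A, (C1 * σ - S.m i) :=
          Finset.sum_le_sum fun i _ => h.cl i
      _ = _ := by rw [Finset.sum_sub_distrib, Finset.sum_const, nsmul_eq_mul]; ring
  have hnn : ∀ i, 0 ≤ ∑ e ∈ (S.E i).filter (fun e => S.bd e), min (f e.1) (f e.2) * S.tu e := by
    intro i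
    refine Finset.sum_nonneg fun e he => ?_
    rw [Finset.mem_filter] at he
    exact mul_nonneg (le_min (hf.nn _) (hf.nn _)) (h.tunn i e he.1 he.2)
  have hRs : ∑ i ∈ R, (S.cap i - S.loss i) ≤
      Cc * ∑ i, ∑ e ∈ (S.E i).filter (fun e => S.bd e), min (f e.1) (f e.2) * S.tu e := by
    calc ∑ i ∈ R, (S.cap i - S.loss i) ≤
          ∑ i ∈ R, Cc * ∑ e ∈ (S.E i).filter (fun e => S.bd e),
            min (f e.1) (f e.2) * S.tu e := by
          refine Finset.sum_le_sum fun i hi => ?_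
          rw [hR, Finset.mem_sdiff, Finset.mem_union, not_or] at hi
          have hib := hi.2.1
          rw [hB] at hib
          simp only [bad, Finset.mem_filter, Finset.mem_univ, true_and, not_or, not_lt] at hib
          have hone : ∀ v ∈ S.W, S.In v i → f v = 1 := by
            intro v hv hvi
            by_contra hne
            apply hi.2.2
            rw [hA, ngood, Finset.mem_filter]
            exact ⟨Finset.mem_univ _, hi.2.1, v, hv, hvi, lt_of_le_of_ne (hf.le1 v) hne⟩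
          have h1 := h.cap i (hib.1.trans hμ) hib.2
          have h2 : ∑ e ∈ (S.E i).filter (fun e => S.bd e), S.tu e =
              ∑ e ∈ (S.E i).filter (fun e => S.bd e), min (f e.1) (f e.2) * S.tu e := by
            refine Finset.sum_congr rfl fun e he => ?_
            rw [Finset.mem_filter] at he
            rw [hone _ (h.eW i e he.1).1.1 (h.eW i e he.1).1.2,
              hone _ (h.eW i e he.1).2.1 (h.eW i e he.1).2.2, min_self, one_mul]
          rw [← h2]
          linarith [h.lossnn i]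
      _ = Cc * ∑ i ∈ R, ∑ e ∈ (S.E i).filter (fun e => S.bd e),
            min (f e.1) (f e.2) * S.tu e := by rw [Finset.mul_sum]
      _ ≤ _ := by
          apply mul_le_mul_of_nonneg_left _ hCc
          exact Finset.sum_le_sum_of_subset_of_nonneg (Finset.subset_univ _) fun i _ _ => hnn i
  have hfar := h.far hCL hσ hμ hf hF
  have hgr := h.sum_grad hC5 hk hf (a := fun i => CL * (σ + S.m i))
    (fun i => mul_nonneg hCL (add_nonneg hσ (h.mnn i)))
  rw [← hA] at hgr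
  have hsumA : ∑ i ∈ A, CL * (σ + S.m i) = CL * (σ * A.card + ∑ i ∈ A, S.m i) := by
    rw [← Finset.mul_sum, Finset.sum_add_distrib, Finset.sum_const, nsmul_eq_mul]
    ring
  rw [hsumA] at hgr
  have hmA : 0 ≤ ∑ i ∈ A, S.m i := Finset.sum_nonneg fun i _ => h.mnn i
  have hcA : (0 : ℝ) ≤ σ * A.card + ∑ i ∈ A, S.m i := by positivity
  have h3 : Cc * (CL * (σ * A.card + ∑ i ∈ A, S.m i) * (2 * N0 * (C5 / k0))) ≤
      1 / 2 * (σ * A.card + ∑ i ∈ A, S.m i) := by
    calc _ = (Cc * CL * (2 * N0 * (C5 / k0))) * (σ * A.card + ∑ i ∈ A, S.m i) := by ring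
      _ ≤ _ := mul_le_mul_of_nonneg_right hG hcA
  have h4 := mul_le_mul_of_nonneg_left (hfar.trans (sub_le_sub_right hgr _)) hCc
  rw [mul_sub] at h4
  have hacc := h.acc
  rw [hsplit] at hacc
  have hσA : 0 ≤ σ * A.card := by positivity
  have h5 : (C1 + 1) * σ * (A.card : ℝ) = C1 * σ * A.card + σ * A.card := by ring
  linarith

/-- The weighted sum of the integers. -/
lemma Ok.dd_sum (h : S.Ok N0 M CL Cc C1 C5 μ0 e1 σ φ b) {bd : Finset ι}
    {sp : Finset V} {k0 : ℝ} {f : V → ℝ} (hC5 : 0 ≤ C5) (hk : 0 < k0)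
    (hf : S.Cut N0 C5 bd sp k0 f) {F : V → ℝ} (hF : ∀ v ∈ S.W, F (S.c v) = f v) :
    |∑ x ∈ S.W.image S.c, F x * (S.dd x : ℝ)| ≤
      (S.ngood bd f).card * (2 * N0 * (C5 / k0)) := by
  rw [sum_parts_dd h.eW' F]
  have h0 := h.sum_grad hC5 hk hf (a := fun _ => (1 : ℝ)) (fun _ => zero_le_one)
  simp only [one_mul, Finset.sum_const, nsmul_eq_mul, mul_one] at h0
  refine le_trans ?_ h0
  refine (Finset.abs_sum_le_sum_abs _ _).trans (Finset.sum_le_sum fun i _ => ?_)
  refine (Finset.abs_sum_le_sum_abs _ _).trans ?_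
  unfold grad
  rw [Finset.sum_filter]
  refine Finset.sum_le_sum fun e he => ?_
  split_ifs with hl
  · have hW := h.eW' i e he
    rw [hF _ hW.1, hF _ hW.2, abs_mul]
    have hk : |(S.kk i e : ℝ)| ≤ 1 := by exact_mod_cast h.kk1 i e he
    calc |f e.1 - f e.2| * |(S.kk i e : ℝ)| ≤ |f e.1 - f e.2| * 1 :=
          mul_le_mul_of_nonneg_left hk (abs_nonneg _)
      _ = _ := mul_one _
  · exact abs_nonneg _

/-- Number of bad cells. -/
lemma Ok.bad_card (h : S.Ok N0 M CL Cc C1 C5 μ0 e1 σ φ b) {μ : ℝ} :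
    μ * ((S.bad μ).card - M) ≤ ∑ i ∈ S.bad μ, S.m i ∨ μ < 0 := by
  by_cases hμ : μ < 0
  · exact Or.inr hμ
  left
  push Not at hμ
  set B := S.bad μ with hB
  set B1 := Finset.univ.filter fun i => μ < S.m i with hB1
  have h1 : B1 ⊆ B := by
    intro i hi
    rw [hB1, Finset.mem_filter] at hi
    rw [hB, bad, Finset.mem_filter]
    exact ⟨hi.1, Or.inl hi.2⟩
  have h2 : B.card ≤ B1.card + M := by
    have h3 : B ⊆ B1 ∪ Finset.univ.filter fun i => S.Sp i := by
      intro i hi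
      rw [hB, bad, Finset.mem_filter] at hi
      rw [Finset.mem_union, hB1, Finset.mem_filter, Finset.mem_filter]
      rcases hi.2 with h4 | h4
      · exact Or.inl ⟨hi.1, h4⟩
      · exact Or.inr ⟨hi.1, h4⟩
    have h4 := (Finset.card_le_card h3).trans (Finset.card_union_le _ _)
    have h5 := h.spM
    omega
  have h3 : (B.card : ℝ) ≤ B1.card + M := by exact_mod_cast h2
  calc μ * ((B.card : ℝ) - M) ≤ μ * B1.card := mul_le_mul_of_nonneg_left (by linarith) hμ
    _ = ∑ _i ∈ B1, μ := by rw [Finset.sum_const, nsmul_eq_mul]; ring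
    _ ≤ ∑ i ∈ B1, S.m i := by
        refine Finset.sum_le_sum fun i hi => ?_
        rw [hB1, Finset.mem_filter] at hi
        exact hi.2.le
    _ ≤ ∑ i ∈ B, S.m i := Finset.sum_le_sum_of_subset_of_nonneg h1 fun i _ _ => h.mnn i

end

end C2305bA.Sys
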